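import Pool.Agent.Work.PolyTime.NPDefs

/-!
The pooling problem with one quality.
-/

set_option autoImplicit false

namespace Pool.Agent.Work.MP_743dc4_lc

open Pool.Agent.Work.PolyTime

/-- A rational number in binary: sign (`true` for minus), numerator, denominator. -/
abbrev BNum : Type := Bool × List Bool × List Bool

/-- The value of a rational number. -/
noncomputable def val (a : BNum) : ℝ :=
  (if a.1 then -1 else 1) * (litVal a.2.1 : ℝ) / (litVal a.2.2 : ℝ)

/-- An arc: tail, head, cost, capacity. -/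
structure Arc where
  tail : ℕ
  head : ℕ
  cost : BNum
  cap : BNum

/-- An instance of the pooling problem with one quality. Inputs, pools and outputs are numbered
by their positions in the lists. -/
structure Inst where
  /-- capacity and quality of every input -/
  inputs : List (BNum × BNum)
  /-- capacity of every pool -/
  pools : List BNum
  /-- capacity and quality bound of every output -/
  outputs : List (BNum × BNum)
  /-- arcs from inputs to pools -/
  arcsI : List Arc
  /-- arcs from pools to outputs -/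
  arcsJ : List Arc

/-- Validity: denominators are nonzero, capacities are nonnegative, arcs join existing nodes, and
there are no multiple arcs. -/
def Inst.Valid (I : Inst) : Prop :=
  (∀ q ∈ I.inputs, litVal q.1.2.2 ≠ 0 ∧ litVal q.2.2.2 ≠ 0 ∧ 0 ≤ val q.1) ∧
  (∀ q ∈ I.pools, litVal q.2.2 ≠ 0 ∧ 0 ≤ val q) ∧
  (∀ q ∈ I.outputs, litVal q.1.2.2 ≠ 0 ∧ litVal q.2.2.2 ≠ 0 ∧ 0 ≤ val q.1) ∧
  (∀ a ∈ I.arcsI, a.tail < I.inputs.length ∧ a.head < I.pools.length ∧
    litVal a.cost.2.2 ≠ 0 ∧ litVal a.cap.2.2 ≠ 0 ∧ 0 ≤ val a.cap) ∧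
  (∀ a ∈ I.arcsJ, a.tail < I.pools.length ∧ a.head < I.outputs.length ∧
    litVal a.cost.2.2 ≠ 0 ∧ litVal a.cap.2.2 ≠ 0 ∧ 0 ≤ val a.cap) ∧
  I.arcsI.Pairwise (fun a b => ¬ (a.tail = b.tail ∧ a.head = b.head)) ∧
  I.arcsJ.Pairwise (fun a b => ¬ (a.tail = b.tail ∧ a.head = b.head))

/-- Every input and every pool has out-degree at most two. -/
def Inst.OutDegLeTwo (I : Inst) : Prop :=
  (∀ i, I.arcsI.countP (fun a => a.tail = i) ≤ 2) ∧
  (∀ l, I.arcsJ.countP (fun a => a.tail = l) ≤ 2)

/-- Quality of the input `i`. -/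
noncomputable def Inst.quality (I : Inst) (i : ℕ) : ℝ := ((I.inputs[i]?).map fun q => val q.2).getD 0

/-- The sum of `f` over the arcs of the list with head `v`. -/
noncomputable def sumIn (A : List Arc) (v : ℕ) (f : Arc → ℝ) : ℝ :=
  ((A.filter fun a => a.head = v).map f).sum

/-- The sum of `f` over the arcs of the list with tail `v`. -/
noncomputable def sumOut (A : List Arc) (v : ℕ) (f : Arc → ℝ) : ℝ :=
  ((A.filter fun a => a.tail = v).map f).sum

/-- Feasible solutions: `x i l` is the flow from input `i` to pool `l`, `y l j` the flow from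
pool `l` to output `j`, and `p l` the quality of pool `l`. -/
structure Inst.Feasible (I : Inst) (x y : ℕ → ℕ → ℝ) (p : ℕ → ℝ) : Prop where
  boundI : ∀ a ∈ I.arcsI, 0 ≤ x a.tail a.head ∧ x a.tail a.head ≤ val a.cap
  boundJ : ∀ a ∈ I.arcsJ, 0 ≤ y a.tail a.head ∧ y a.tail a.head ≤ val a.cap
  conservation : ∀ l < I.pools.length,
    sumIn I.arcsI l (fun a => x a.tail a.head) = sumOut I.arcsJ l (fun a => y a.tail a.head)
  capInput : ∀ i q, I.inputs[i]? = some q → sumOut I.arcsI i (fun a => x a.tail a.head) ≤ val q.1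
  capPool : ∀ l q, I.pools[l]? = some q → sumIn I.arcsI l (fun a => x a.tail a.head) ≤ val q
  capOutput : ∀ j q, I.outputs[j]? = some q →
    sumIn I.arcsJ j (fun a => y a.tail a.head) ≤ val q.1
  blendPool : ∀ l < I.pools.length, sumIn I.arcsI l (fun a => I.quality a.tail * x a.tail a.head) =
    p l * sumOut I.arcsJ l (fun a => y a.tail a.head)
  blendOutput : ∀ j q, I.outputs[j]? = some q →
    sumIn I.arcsJ j (fun a => p a.tail * y a.tail a.head) ≤
      val q.2 * sumIn I.arcsJ j (fun a => y a.tail a.head)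

/-- The cost of a flow. -/
noncomputable def Inst.totalCost (I : Inst) (x y : ℕ → ℕ → ℝ) : ℝ :=
  (I.arcsI.map fun a => val a.cost * x a.tail a.head).sum +
    (I.arcsJ.map fun a => val a.cost * y a.tail a.head).sum

/-- The number is an integer `0, 1, ..., n`, written with denominator one. -/
def BNum.NatLe (a : BNum) (n : ℕ) : Prop := a.1 = false ∧ litVal a.2.1 ≤ n ∧ litVal a.2.2 = 1

/-- Small instances: two outputs, qualities and bounds `0` or `1`, costs `0` or `-1`, and
capacities that are integers not larger than the number of inputs. -/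
def Inst.Small (I : Inst) : Prop :=
  I.outputs.length = 2 ∧
  (∀ q ∈ I.inputs, BNum.NatLe q.1 I.inputs.length ∧ BNum.NatLe q.2 1) ∧
  (∀ q ∈ I.pools, BNum.NatLe q I.inputs.length) ∧
  (∀ q ∈ I.outputs, BNum.NatLe q.1 I.inputs.length ∧ BNum.NatLe q.2 1) ∧
  (∀ a, a ∈ I.arcsI ∨ a ∈ I.arcsJ → (val a.cost = 0 ∨ val a.cost = -1) ∧
    litVal a.cost.2.2 = 1 ∧ BNum.NatLe a.cap I.inputs.length)

end Pool.Agent.Work.MP_743dc4_lc
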