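import Pool.Agent.Work.MP_743dc4_lc.Main
import Pool.Agent.Work.PolyTime.More

/-!
NP-hardness of the pooling problem with one quality and out-degrees at most two: the reduction
runs in polynomial time and produces valid instances.
-/

set_option autoImplicit false
set_option linter.unusedSimpArgs false

namespace Pool.Agent.Work.MP_743dc4_lc

open Pool.Agent.Work.PolyTime

/-! ### Instances as tuples -/

abbrev ArcT : Type := ℕ × ℕ × BNum × BNum
abbrev InstT : Type := List (BNum × BNum) × List BNum × List (BNum × BNum) × List ArcT × List ArcT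

def Arc.toT (a : Arc) : ArcT := (a.tail, a.head, a.cost, a.cap)
def ofT (a : ArcT) : Arc := ⟨a.1, a.2.1, a.2.2.1, a.2.2.2⟩

theorem ofT_toT (a : Arc) : ofT a.toT = a := rfl
theorem toT_ofT (a : ArcT) : (ofT a).toT = a := rfl

def Inst.toT (I : Inst) : InstT :=
  (I.inputs, I.pools, I.outputs, I.arcsI.map Arc.toT, I.arcsJ.map Arc.toT)
def instOf (I : InstT) : Inst := ⟨I.1, I.2.1, I.2.2.1, I.2.2.2.1.map ofT, I.2.2.2.2.map ofT⟩

theorem instOf_toT (I : Inst) : instOf I.toT = I := by
  have h : ∀ l : List Arc, (l.map Arc.toT).map ofT = l := by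
    intro l; rw [List.map_map]
    have : (ofT ∘ Arc.toT) = id := rfl
    rw [this, List.map_id]
  obtain ⟨a, b, c, d, e⟩ := I
  simp only [Inst.toT, instOf, h]

theorem toT_instOf (I : InstT) : (instOf I).toT = I := by
  have h : ∀ l : List ArcT, (l.map ofT).map Arc.toT = l := by
    intro l; rw [List.map_map]
    have : (Arc.toT ∘ ofT) = id := rfl
    rw [this, List.map_id]
  obtain ⟨a, b, c, d, e⟩ := I
  simp only [Inst.toT, instOf, h]

/-! ### Validity -/

variable {E : List (ℕ × ℕ)} {n : ℕ}

theorem litVal_one : litVal [true] = 1 := rfl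

theorem val_one_nonneg : 0 ≤ val oneN := by rw [val_oneN]; norm_num

theorem val_nat_nonneg (k : ℕ) : 0 ≤ val (natN k) := by rw [val_natN]; positivity

theorem pairwise_arcsI (h : ∀ e ∈ E, e.1 < e.2) : (mkI E n).arcsI.Pairwise
    (fun a b => ¬ (a.tail = b.tail ∧ a.head = b.head)) := by
  simp only [mkI]
  rw [List.pairwise_append]
  refine ⟨?_, ?_, ?_⟩
  · rw [List.pairwise_flatMap]
    constructor
    · rintro ⟨e, k⟩ hk
      have he : e ∈ E := by
        rw [List.mem_zipIdx_iff_getElem?] at hk
        exact List.mem_of_getElem? hk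
      have h1 := h e he
      simp only [List.pairwise_cons, List.mem_cons, List.not_mem_nil, or_false, forall_eq,
        List.Pairwise.nil, and_true, not_and, true_and, forall_const, IsEmpty.forall_iff,
        implies_true]
      omega
    · have h1 : (E.zipIdx).Pairwise (fun a b => a.2 ≠ b.2) := by
        have h2 : ((E.zipIdx).map Prod.snd).Nodup := by
          rw [List.zipIdx_map_snd]
          exact List.nodup_range' ..
        rw [List.Nodup, List.pairwise_map] at h2
        exact h2
      refine h1.imp ?_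
      rintro ⟨e, k⟩ ⟨f, l⟩ hkl a ha b hb
      simp only [List.mem_cons, List.not_mem_nil, or_false] at ha hb
      simp only at hkl
      rcases ha with rfl | rfl <;> rcases hb with rfl | rfl <;> simp [hkl]
  · rw [List.pairwise_map]
    refine List.nodup_range.imp ?_
    intro a b hab
    simp [hab]
  · intro a ha b hb
    simp only [List.mem_flatMap, List.mem_map, List.mem_range, List.mem_cons, List.not_mem_nil,
      or_false] at ha hb
    obtain ⟨⟨e, k⟩, hk, ha⟩ := ha
    obtain ⟨v, hv, rfl⟩ := hb
    have hk' : k < E.length := by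
      rw [List.mem_zipIdx_iff_getElem?] at hk
      exact (List.getElem?_eq_some_iff.1 hk).1
    rcases ha with rfl | rfl <;> simp <;> omega

theorem pairwise_arcsJ : (mkI E n).arcsJ.Pairwise
    (fun a b => ¬ (a.tail = b.tail ∧ a.head = b.head)) := by
  simp only [mkI]
  rw [List.pairwise_flatMap]
  constructor
  · intro v _
    simp
  · refine List.nodup_range.imp ?_
    intro a b hab x hx y hy
    simp only [List.mem_cons, List.not_mem_nil, or_false] at hx hy
    rcases hx with rfl | rfl <;> rcases hy with rfl | rfl <;> simp [hab]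

theorem mkI_valid (hE : ∀ e ∈ E, e.1 < e.2 ∧ e.2 < n) : (mkI E n).Valid := by
  refine ⟨?_, ?_, ?_, ?_, ?_, pairwise_arcsI (fun e he => (hE e he).1), pairwise_arcsJ⟩
  · intro q hq
    simp only [mkI, List.mem_append, List.mem_map] at hq
    rcases hq with ⟨_, -, rfl⟩ | ⟨_, -, rfl⟩
    · exact ⟨by simp [oneN, litVal_one], by simp [oneN, litVal_one], val_one_nonneg⟩
    · exact ⟨by simp [oneN, litVal_one], by simp [zeroN, litVal_one], val_one_nonneg⟩
  · intro q hq
    simp only [mkI, List.mem_map] at hq
    obtain ⟨_, -, rfl⟩ := hq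
    exact ⟨by simp [natN, litVal_one], val_nat_nonneg _⟩
  · intro q hq
    simp only [mkI, List.mem_cons, List.not_mem_nil, or_false] at hq
    rcases hq with rfl | rfl
    · exact ⟨by simp [natN, litVal_one], by simp [zeroN, litVal_one], val_nat_nonneg _⟩
    · exact ⟨by simp [natN, litVal_one], by simp [oneN, litVal_one], val_nat_nonneg _⟩
  · intro a ha
    rw [mem_arcsI] at ha
    rcases ha with ⟨k, hk, rfl | rfl⟩ | ⟨v, hv, rfl⟩
    · refine ⟨?_, ?_, by simp [moneN, litVal_one], by simp [oneN, litVal_one], val_one_nonneg⟩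
      · simp [mkI]; omega
      · have := hE _ (mem_edge hk)
        simp only at this
        simp [mkI]; omega
    · refine ⟨?_, ?_, by simp [moneN, litVal_one], by simp [oneN, litVal_one], val_one_nonneg⟩
      · simp [mkI]; omega
      · have := hE _ (mem_edge hk)
        simp only at this
        simp [mkI]; omega
    · refine ⟨?_, ?_, by simp [zeroN, litVal_one], by simp [oneN, litVal_one], val_one_nonneg⟩
      · simp [mkI]; omega
      · simp [mkI]; omega
  · intro a ha
    rw [mem_arcsJ] at ha
    rcases ha with ⟨v, hv, rfl | rfl⟩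
    · exact ⟨by simp [mkI]; omega, by simp [mkI], by simp [moneN, litVal_one],
        by simp [oneN, litVal_one], val_one_nonneg⟩
    · exact ⟨by simp [mkI]; omega, by simp [mkI], by simp [zeroN, litVal_one],
        by simp [natN, litVal_one], val_nat_nonneg _⟩

theorem countP_eq_sum_map (A : List Arc) (P : Arc → Prop) [DecidablePred P] :
    ((A.countP fun a => P a : ℕ) : ℝ) = (A.map fun a => if P a then (1 : ℝ) else 0).sum := by
  induction A with
  | nil => simp
  | cons a A ih =>
    rw [List.countP_cons, List.map_cons, List.sum_cons, ← ih]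
    by_cases h : P a
    · simp [h, add_comm]
    · simp [h]

theorem mkI_outdeg : (mkI E n).OutDegLeTwo := by
  classical
  constructor
  · intro i
    have h : (((mkI E n).arcsI.countP (fun a => a.tail = i) : ℕ) : ℝ) ≤ 2 := by
      rw [countP_eq_sum_map, sum_arcsI]
      simp only [Finset.sum_add_distrib, Finset.sum_ite_eq', Finset.mem_range]
      by_cases hi : i < E.length
      · have h0 : (∑ v ∈ Finset.range n, if E.length + v = i then (1 : ℝ) else 0) = 0 := by
          refine Finset.sum_eq_zero fun v _ => ?_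
          rw [if_neg (by omega)]
        rw [h0]
        simp only [hi, if_true]; norm_num
      · simp only [hi, if_false]
        have h0 : (∑ v ∈ Finset.range n, if E.length + v = i then (1 : ℝ) else 0) ≤ 1 := by
          have h1 : ∀ v, (E.length + v = i) ↔ (v = i - E.length) := by intro v; omega
          simp only [h1, Finset.sum_ite_eq', Finset.mem_range]
          split_ifs <;> norm_num
        linarith
    exact_mod_cast h
  · intro l
    have h : (((mkI E n).arcsJ.countP (fun a => a.tail = l) : ℕ) : ℝ) ≤ 2 := by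
      rw [countP_eq_sum_map, sum_arcsJ]
      simp only [Finset.sum_add_distrib, Finset.sum_ite_eq', Finset.mem_range]
      split_ifs <;> norm_num
    exact_mod_cast h

theorem inputs_length : (mkI E n).inputs.length = E.length + n := by simp [mkI]

theorem mkI_small (hn : 0 < n) : (mkI E n).Small := by
  have hone : ∀ m, 1 ≤ m → BNum.NatLe oneN m := fun m hm => ⟨rfl, by simpa [oneN, litVal_one], rfl⟩
  have hzero : ∀ m, BNum.NatLe zeroN m := fun m => ⟨rfl, by simp [zeroN, litVal_nil], rfl⟩
  have hnat : ∀ m k, m ≤ k → BNum.NatLe (natN m) k := fun m k h =>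
    ⟨rfl, by simpa [natN, toBin_val], rfl⟩
  have h1 : 1 ≤ E.length + n := by omega
  refine ⟨by simp [mkI], ?_, ?_, ?_, ?_⟩
  · intro q hq
    rw [inputs_length]
    simp only [mkI, List.mem_append, List.mem_map] at hq
    rcases hq with ⟨_, -, rfl⟩ | ⟨_, -, rfl⟩
    · exact ⟨hone _ h1, hone _ le_rfl⟩
    · exact ⟨hone _ h1, hzero _⟩
  · intro q hq
    rw [inputs_length]
    simp only [mkI, List.mem_map] at hq
    obtain ⟨_, -, rfl⟩ := hq
    exact hnat _ _ le_rfl
  · intro q hq
    rw [inputs_length]
    simp only [mkI, List.mem_cons, List.not_mem_nil, or_false] at hq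
    rcases hq with rfl | rfl
    · exact ⟨hnat _ _ le_rfl, hzero _⟩
    · exact ⟨hnat _ _ le_rfl, hone _ le_rfl⟩
  · intro a ha
    rw [inputs_length]
    rcases ha with ha | ha
    · rw [mem_arcsI] at ha
      rcases ha with ⟨k, hk, rfl | rfl⟩ | ⟨v, hv, rfl⟩
      · exact ⟨Or.inr val_moneN, rfl, hone _ h1⟩
      · exact ⟨Or.inr val_moneN, rfl, hone _ h1⟩
      · exact ⟨Or.inl val_zeroN, rfl, hone _ h1⟩
    · rw [mem_arcsJ] at ha
      rcases ha with ⟨v, hv, rfl | rfl⟩
      · exact ⟨Or.inr val_moneN, rfl, hone _ h1⟩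
      · exact ⟨Or.inl val_zeroN, rfl, hnat _ _ le_rfl⟩

/-! ### Polynomial time -/

section

variable {α : Type} [Code α]

theorem PTime.natN {n : α → ℕ} (hn : PTime n) : PTime (fun x => MP_743dc4_lc.natN (n x)) := by
  unfold MP_743dc4_lc.natN
  exact PTime.prodMk (PTime.const _) (PTime.prodMk (PTime.toBin hn) (PTime.const _))

theorem PTime.negN {n : α → ℕ} (hn : PTime n) : PTime (fun x => MP_743dc4_lc.negN (n x)) := by
  unfold MP_743dc4_lc.negN
  exact PTime.prodMk (PTime.const _) (PTime.prodMk (PTime.toBin hn) (PTime.const _))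

/-- The instance as a tuple. -/
def mkT (E : List (ℕ × ℕ)) (n : ℕ) : InstT :=
  ((E.map fun _ => (oneN, oneN)) ++ (List.range n).map fun _ => (oneN, zeroN),
   (List.range n).map fun _ => natN (E.length + n),
   [(natN (E.length + n), zeroN), (natN (E.length + n), oneN)],
   (E.zipIdx.flatMap fun e => [(e.2, e.1.1, moneN, oneN), (e.2, e.1.2, moneN, oneN)]) ++
    (List.range n).map fun v => (E.length + v, v, zeroN, oneN),
   (List.range n).flatMap fun v =>
    [(v, 0, moneN, oneN), (v, 1, zeroN, natN (E.length + n))])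

theorem mkT_eq (E : List (ℕ × ℕ)) (n : ℕ) : (mkI E n).toT = mkT E n := by
  simp only [mkI, mkT, Inst.toT, List.map_append, List.map_flatMap, List.map_map, List.map_cons,
    List.map_nil, Arc.toT]
  rfl

theorem PTime.mkT {E : α → List (ℕ × ℕ)} {n : α → ℕ} (hE : PTime E) (hn : PTime n) :
    PTime (fun x => MP_743dc4_lc.mkT (E x) (n x)) := by
  have hr : PTime (fun x => List.range (n x)) := PTime.range hn
  have hm : PTime (fun x => MP_743dc4_lc.natN ((E x).length + n x)) :=
    PTime.natN (PTime.natAdd (PTime.length hE) hn)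
  have hk (c : BNum) : PTime (fun _ : α => c) := PTime.const c
  unfold MP_743dc4_lc.mkT
  refine PTime.prodMk ?_ (PTime.prodMk ?_ (PTime.prodMk ?_ (PTime.prodMk ?_ ?_)))
  · exact PTime.append (PTime.map hE (PTime.const _)) (PTime.map hr (PTime.const _))
  · exact PTime.map (f := fun x _ => MP_743dc4_lc.natN ((E x).length + n x)) hr
      (hm.comp PTime.fst)
  · exact PTime.cons (PTime.prodMk hm (PTime.const _))
      (PTime.cons (PTime.prodMk hm (PTime.const _)) (PTime.const _))
  · refine PTime.append (PTime.flatMap (PTime.zipIdx hE) ?_) (PTime.map hr ?_)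
    · fun_prop
    · have h1 : PTime (fun y : α × ℕ => (E y.1).length) := (PTime.length hE).comp PTime.fst
      fun_prop
  · refine PTime.flatMap hr ?_
    have h1 : PTime (fun y : α × ℕ => MP_743dc4_lc.natN ((E y.1).length + n y.1)) :=
      hm.comp PTime.fst
    fun_prop

end

/-! ### Conclusion -/

/-- Well-formed inputs, restricted to the instances in `S`. -/
def WF (S : Set Inst) (a : InstT × BNum) : Prop :=
  (instOf a.1).Valid ∧ (instOf a.1).OutDegLeTwo ∧ instOf a.1 ∈ S ∧ litVal a.2.2.2 ≠ 0

/-- Yes-instances. -/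
def Yes (a : InstT × BNum) : Prop :=
  ∃ x y : ℕ → ℕ → ℝ, ∃ p : ℕ → ℝ, (instOf a.1).Feasible x y p ∧
    (instOf a.1).totalCost x y ≤ val a.2

/-- The edges of the graph with an isolated vertex added. -/
theorem ind_succ (E : List (ℕ × ℕ)) (n m : ℕ) (hE : ∀ e ∈ E, e.1 < e.2 ∧ e.2 < n) :
    (∃ S : Finset ℕ, IsInd E n S ∧ m ≤ S.card) ↔
      ∃ S : Finset ℕ, IsInd E (n + 1) S ∧ m + 1 ≤ S.card := by
  constructor
  · rintro ⟨S, ⟨h1, h2⟩, h3⟩
    have hn : n ∉ S := fun h => by have := h1 n h; omega
    refine ⟨insert n S, ⟨?_, ?_⟩, ?_⟩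
    · intro v hv
      rcases Finset.mem_insert.1 hv with rfl | hv
      · omega
      · have := h1 v hv; omega
    · rintro e he ⟨ha, hb⟩
      have h4 := hE e he
      rcases Finset.mem_insert.1 ha with h | ha
      · omega
      rcases Finset.mem_insert.1 hb with h | hb
      · omega
      exact h2 e he ⟨ha, hb⟩
    · rw [Finset.card_insert_of_notMem hn]; omega
  · rintro ⟨S, ⟨h1, h2⟩, h3⟩
    refine ⟨S.erase n, ⟨?_, ?_⟩, ?_⟩
    · intro v hv
      obtain ⟨h4, h5⟩ := Finset.mem_erase.1 hv
      have := h1 v h5; omega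
    · rintro e he ⟨ha, hb⟩
      exact h2 e he ⟨(Finset.mem_erase.1 ha).2, (Finset.mem_erase.1 hb).2⟩
    · have := Finset.pred_card_le_card_erase (s := S) (a := n)
      omega

/-- The reduction. -/
def red (C : List NClause) : InstT × BNum :=
  (mkT (isE C) (isN C + 1), negN ((isE C).length + (C.length + 1)))

theorem red_ptime : PTime red := by
  unfold red
  have h1 : PTime (fun C => isN C + 1) := PTime.natAdd isN_ptime (PTime.const 1)
  have h2 : PTime (fun C => (isE C).length + (C.length + 1)) :=
    PTime.natAdd (PTime.length isE_ptime) (PTime.natAdd (PTime.length PTime.id) (PTime.const 1))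
  exact PTime.prodMk (PTime.mkT isE_ptime h1) (PTime.negN h2)

theorem red_lt (C : List NClause) : ∀ e ∈ isE C, e.1 < e.2 ∧ e.2 < isN C + 1 := by
  intro e he
  have := isE_lt he
  omega

theorem red_inst (C : List NClause) : instOf (red C).1 = mkI (isE C) (isN C + 1) := by
  rw [red, ← mkT_eq, instOf_toT]

theorem red_wf (S : Set Inst) (hS : ∀ I : Inst, I.Small → I ∈ S) (C : List NClause) :
    WF S (red C) := by
  refine ⟨?_, ?_, ?_, ?_⟩
  · rw [red_inst]; exact mkI_valid (red_lt C)
  · rw [red_inst]; exact mkI_outdeg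
  · rw [red_inst]; exact hS _ (mkI_small (by omega))
  · simp [red, negN, litVal_one]

theorem red_correct (C : List NClause) : CnfSat C ↔ Yes (red C) := by
  rw [ind_correct, ind_succ _ _ _ (fun e he => isE_lt he), Yes, red_inst]
  have hv : val (red C).2 = -(((isE C).length + (C.length + 1) : ℕ) : ℝ) := by
    rw [red, val_negN]
  rw [hv]
  constructor
  · rintro ⟨S, hS, h⟩
    obtain ⟨h1, h2⟩ := ind_to_sol (red_lt C) hS h
    exact ⟨_, _, _, h1, h2⟩
  · rintro ⟨x, y, p, h1, h2⟩
    exact sol_to_ind (red_lt C) h1 h2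

/-- NP-hardness of the pooling problem with one quality and out-degrees at most two. -/
theorem pooling_nphard (S : Set Inst) (hS : ∀ I : Inst, I.Small → I ∈ S) :
    NPHard (problem (WF S) Yes) :=
  nphard_of_cnf red_ptime (red_wf S hS) (fun C _ => red_correct C)

end Pool.Agent.Work.MP_743dc4_lc
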