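import Pool.Agent.Work.PolyTime.IndSet
import Pool.Agent.Work.MP_743dc4_lc.Defs

/-!
NP-hardness of the pooling problem with one quality and out-degrees at most two.
-/

set_option autoImplicit false
set_option linter.unusedSimpArgs false

namespace Pool.Agent.Work.MP_743dc4_lc

open Pool.Agent.Work.PolyTime
open Finset (range)

/-! ### The instance -/

def zeroN : BNum := (false, [], [true])
def oneN : BNum := (false, [true], [true])
def moneN : BNum := (true, [true], [true])
def natN (n : ℕ) : BNum := (false, toBin n, [true])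
def negN (n : ℕ) : BNum := (true, toBin n, [true])

theorem litVal_nil : litVal [] = 0 := rfl
theorem litVal_true : litVal [true] = 1 := rfl

theorem val_zeroN : val zeroN = 0 := by simp [val, zeroN, litVal_nil, litVal_true]
theorem val_oneN : val oneN = 1 := by simp [val, oneN, litVal_nil, litVal_true]
theorem val_moneN : val moneN = -1 := by simp [val, moneN, litVal_nil, litVal_true]
theorem val_natN (n : ℕ) : val (natN n) = n := by
  simp [val, natN, litVal_nil, litVal_true, toBin_val]
theorem val_negN (n : ℕ) : val (negN n) = -n := by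
  simp [val, negN, litVal_nil, litVal_true, toBin_val]

def mkI (E : List (ℕ × ℕ)) (n : ℕ) : Inst where
  inputs := (E.map fun _ => (oneN, oneN)) ++ (List.range n).map fun _ => (oneN, zeroN)
  pools := (List.range n).map fun _ => natN (E.length + n)
  outputs := [(natN (E.length + n), zeroN), (natN (E.length + n), oneN)]
  arcsI := (E.zipIdx.flatMap fun e => [⟨e.2, e.1.1, moneN, oneN⟩, ⟨e.2, e.1.2, moneN, oneN⟩]) ++
    (List.range n).map fun v => ⟨E.length + v, v, zeroN, oneN⟩
  arcsJ := (List.range n).flatMap fun v =>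
    [⟨v, 0, moneN, oneN⟩, ⟨v, 1, zeroN, natN (E.length + n)⟩]

/-! ### Sums -/

theorem sum_zipIdx_range {X : Type} (d : X) (L : List X) (g : X × ℕ → ℝ) :
    (L.zipIdx.map g).sum = ∑ k ∈ range L.length, g (L.getD k d, k) := by
  induction L using List.reverseRecOn with
  | nil => simp
  | append_singleton L a ih =>
    rw [List.zipIdx_append, List.map_append, List.sum_append, ih, List.length_append,
      List.length_singleton, Finset.sum_range_succ]
    congr 1
    · refine Finset.sum_congr rfl fun k hk => ?_
      rw [Finset.mem_range] at hk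
      have : (L ++ [a]).getD k d = L.getD k d := by
        rw [List.getD_eq_getElem?_getD, List.getD_eq_getElem?_getD, List.getElem?_append_left hk]
      rw [this]
    · simp

theorem sum_list_range (n : ℕ) (g : ℕ → ℝ) :
    ((List.range n).map g).sum = ∑ k ∈ range n, g k := rfl

variable {E : List (ℕ × ℕ)} {n : ℕ}

/-- first end of the `k`-th edge -/
def ea (E : List (ℕ × ℕ)) (k : ℕ) : ℕ := (E.getD k (0, 0)).1
def eb (E : List (ℕ × ℕ)) (k : ℕ) : ℕ := (E.getD k (0, 0)).2

theorem sum_arcsI (F : Arc → ℝ) : ((mkI E n).arcsI.map F).sum =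
    ∑ k ∈ range E.length, (F ⟨k, ea E k, moneN, oneN⟩ + F ⟨k, eb E k, moneN, oneN⟩) +
      ∑ v ∈ range n, F ⟨E.length + v, v, zeroN, oneN⟩ := by
  simp only [mkI, List.map_append, List.sum_append, List.map_map]
  congr 1
  rw [List.map_flatMap]
  have h : ∀ (L : List ((ℕ × ℕ) × ℕ)), (L.flatMap fun e => List.map F
      [⟨e.2, e.1.1, moneN, oneN⟩, ⟨e.2, e.1.2, moneN, oneN⟩]).sum =
      (L.map fun e => F ⟨e.2, e.1.1, moneN, oneN⟩ + F ⟨e.2, e.1.2, moneN, oneN⟩).sum := by
    intro L
    induction L with
    | nil => rfl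
    | cons e L ih => simp only [List.flatMap_cons, List.sum_append, ih]; simp
  rw [h, sum_zipIdx_range (0, 0)]
  rfl

theorem sum_arcsJ (F : Arc → ℝ) : ((mkI E n).arcsJ.map F).sum =
    ∑ v ∈ range n, (F ⟨v, 0, moneN, oneN⟩ + F ⟨v, 1, zeroN, natN (E.length + n)⟩) := by
  simp only [mkI]
  rw [List.map_flatMap]
  have h : ∀ (L : List ℕ), (L.flatMap fun v => List.map F
      [⟨v, 0, moneN, oneN⟩, ⟨v, 1, zeroN, natN (E.length + n)⟩]).sum =
      (L.map fun v => F ⟨v, 0, moneN, oneN⟩ + F ⟨v, 1, zeroN, natN (E.length + n)⟩).sum := by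
    intro L
    induction L with
    | nil => rfl
    | cons e L ih => simp only [List.flatMap_cons, List.sum_append, ih]; simp
  rw [h]
  rfl

theorem filter_map_sum (A : List Arc) (P : Arc → Prop) [DecidablePred P] (f : Arc → ℝ) :
    ((A.filter fun a => P a).map f).sum = (A.map fun a => if P a then f a else 0).sum := by
  induction A with
  | nil => rfl
  | cons a A ih =>
    rw [List.filter_cons]
    by_cases h : P a
    · simp [h, ih]
    · simp [h, ih]

theorem sumIn_I (f : Arc → ℝ) (l : ℕ) : sumIn (mkI E n).arcsI l f =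
    ∑ k ∈ range E.length, ((if ea E k = l then f ⟨k, ea E k, moneN, oneN⟩ else 0) +
      (if eb E k = l then f ⟨k, eb E k, moneN, oneN⟩ else 0)) +
      ∑ v ∈ range n, (if v = l then f ⟨E.length + v, v, zeroN, oneN⟩ else 0) := by
  rw [sumIn, filter_map_sum, sum_arcsI]

theorem sumOut_I (f : Arc → ℝ) (l : ℕ) : sumOut (mkI E n).arcsI l f =
    ∑ k ∈ range E.length, ((if k = l then f ⟨k, ea E k, moneN, oneN⟩ else 0) +
      (if k = l then f ⟨k, eb E k, moneN, oneN⟩ else 0)) +
      ∑ v ∈ range n, (if E.length + v = l then f ⟨E.length + v, v, zeroN, oneN⟩ else 0) := by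
  rw [sumOut, filter_map_sum, sum_arcsI]

theorem sumIn_J (f : Arc → ℝ) (l : ℕ) : sumIn (mkI E n).arcsJ l f =
    ∑ v ∈ range n, ((if 0 = l then f ⟨v, 0, moneN, oneN⟩ else 0) +
      (if 1 = l then f ⟨v, 1, zeroN, natN (E.length + n)⟩ else 0)) := by
  rw [sumIn, filter_map_sum, sum_arcsJ]

theorem sumOut_J (f : Arc → ℝ) {l : ℕ} (hl : l < n) : sumOut (mkI E n).arcsJ l f =
    f ⟨l, 0, moneN, oneN⟩ + f ⟨l, 1, zeroN, natN (E.length + n)⟩ := by
  rw [sumOut, filter_map_sum, sum_arcsJ]
  simp only [Finset.sum_add_distrib, Finset.sum_ite_eq', Finset.mem_range, hl, if_true]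

theorem quality_edge {k : ℕ} (hk : k < E.length) : (mkI E n).quality k = 1 := by
  simp only [Inst.quality, mkI]
  rw [List.getElem?_append_left (by simpa using hk)]
  simp [hk, val_oneN]

theorem quality_vertex {v : ℕ} (hv : v < n) : (mkI E n).quality (E.length + v) = 0 := by
  simp only [Inst.quality, mkI]
  rw [List.getElem?_append_right (by simp)]
  simp [hv, val_zeroN]

theorem mem_arcsI {a : Arc} : a ∈ (mkI E n).arcsI ↔
    (∃ k < E.length, a = ⟨k, ea E k, moneN, oneN⟩ ∨ a = ⟨k, eb E k, moneN, oneN⟩) ∨
      ∃ v < n, a = ⟨E.length + v, v, zeroN, oneN⟩ := by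
  simp only [mkI, List.mem_append, List.mem_flatMap, List.mem_map, List.mem_range, List.mem_cons,
    List.not_mem_nil, or_false]
  refine or_congr ?_ ?_
  · constructor
    · rintro ⟨⟨e, k⟩, h1, h2⟩
      rw [List.mem_zipIdx_iff_getElem?] at h1
      simp only at h1 h2
      obtain ⟨hk, h3⟩ := List.getElem?_eq_some_iff.1 h1
      refine ⟨k, hk, ?_⟩
      have e1 : E.getD k (0, 0) = e := by rw [List.getD_eq_getElem?_getD, h1]; rfl
      rw [ea, eb, e1]; exact h2
    · rintro ⟨k, hk, h⟩
      refine ⟨(E.getD k (0, 0), k), ?_, h⟩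
      rw [List.mem_zipIdx_iff_getElem?]
      simp [List.getD_eq_getElem?_getD, hk]
  · constructor
    · rintro ⟨v, hv, rfl⟩; exact ⟨v, hv, rfl⟩
    · rintro ⟨v, hv, rfl⟩; exact ⟨v, hv, rfl⟩

theorem mem_arcsJ {a : Arc} : a ∈ (mkI E n).arcsJ ↔
    ∃ v < n, a = ⟨v, 0, moneN, oneN⟩ ∨ a = ⟨v, 1, zeroN, natN (E.length + n)⟩ := by
  simp only [mkI, List.mem_flatMap, List.mem_range, List.mem_cons, List.not_mem_nil, or_false]

theorem mem_edge {k : ℕ} (hk : k < E.length) : (ea E k, eb E k) ∈ E := by
  have : (ea E k, eb E k) = E[k] := by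
    rw [ea, eb, List.getD_eq_getElem?_getD]; simp [hk]
  rw [this]; exact List.getElem_mem hk

theorem edge_mem {e : ℕ × ℕ} (he : e ∈ E) : ∃ k < E.length, ea E k = e.1 ∧ eb E k = e.2 := by
  obtain ⟨k, hk, rfl⟩ := List.getElem_of_mem he
  refine ⟨k, hk, ?_, ?_⟩
  · rw [ea, List.getD_eq_getElem?_getD]; simp [hk]
  · rw [eb, List.getD_eq_getElem?_getD]; simp [hk]

/-! ### From solutions to independent sets -/

theorem sol_to_ind (hE : ∀ e ∈ E, e.1 < e.2 ∧ e.2 < n) {m : ℕ} {x y : ℕ → ℕ → ℝ} {p : ℕ → ℝ}
    (hf : (mkI E n).Feasible x y p) (hc : (mkI E n).totalCost x y ≤ -((E.length + m : ℕ) : ℝ)) :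
    ∃ S : Finset ℕ, IsInd E n S ∧ m ≤ S.card := by
  classical
  have hpl : (mkI E n).pools.length = n := by simp [mkI]
  -- elementary bounds
  have hxa : ∀ k < E.length, 0 ≤ x k (ea E k) := fun k hk =>
    (hf.boundI _ (mem_arcsI.2 (Or.inl ⟨k, hk, Or.inl rfl⟩))).1
  have hxb : ∀ k < E.length, 0 ≤ x k (eb E k) := fun k hk =>
    (hf.boundI _ (mem_arcsI.2 (Or.inl ⟨k, hk, Or.inr rfl⟩))).1
  have hy0 : ∀ v < n, 0 ≤ y v 0 ∧ y v 0 ≤ 1 := fun v hv => by
    have := hf.boundJ _ (mem_arcsJ.2 ⟨v, hv, Or.inl rfl⟩)
    simpa only [val_oneN] using this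
  have hy1 : ∀ v < n, 0 ≤ y v 1 := fun v hv =>
    (hf.boundJ _ (mem_arcsJ.2 ⟨v, hv, Or.inr rfl⟩)).1
  have hcap : ∀ k < E.length, x k (ea E k) + x k (eb E k) ≤ 1 := by
    intro k hk
    have h1 := hf.capInput k (oneN, oneN) (by
      simp only [mkI]
      rw [List.getElem?_append_left (by simpa using hk)]
      simp [hk])
    rw [sumOut_I] at h1
    simp only [Finset.sum_add_distrib, Finset.sum_ite_eq', Finset.mem_range, hk, if_true,
      val_oneN] at h1
    have h2 : ∑ v ∈ range n, (if E.length + v = k then x (E.length + v) v else 0) = 0 := by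
      apply Finset.sum_eq_zero
      intro v _
      rw [if_neg (by omega)]
    rw [h2] at h1
    linarith
  -- blending at the pools
  have hblend : ∀ v < n, ∑ k ∈ range E.length, ((if ea E k = v then x k (ea E k) else 0) +
      (if eb E k = v then x k (eb E k) else 0)) = p v * (y v 0 + y v 1) := by
    intro v hv
    have h1 := hf.blendPool v (by rw [hpl]; exact hv)
    rw [sumIn_I, sumOut_J _ hv] at h1
    simp only at h1
    rw [← h1]
    have h2 : ∑ w ∈ range n, (if w = v then (mkI E n).quality (E.length + w) *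
        x (E.length + w) w else 0) = 0 := by
      apply Finset.sum_eq_zero
      intro w hw
      rw [quality_vertex (Finset.mem_range.1 hw)]
      simp
    rw [h2, add_zero]
    refine Finset.sum_congr rfl fun k hk => ?_
    rw [quality_edge (Finset.mem_range.1 hk), one_mul, one_mul]
  have hterm : ∀ k ∈ range E.length, ∀ v, 0 ≤ (if ea E k = v then x k (ea E k) else 0) +
      (if eb E k = v then x k (eb E k) else 0) := by
    intro k hk v
    have h1 := hxa k (Finset.mem_range.1 hk)
    have h2 := hxb k (Finset.mem_range.1 hk)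
    split_ifs <;> linarith
  have hbad : ∀ v, 0 ≤ ∑ k ∈ range E.length, ((if ea E k = v then x k (ea E k) else 0) +
      (if eb E k = v then x k (eb E k) else 0)) := fun v =>
    Finset.sum_nonneg fun k hk => hterm k hk v
  have hpy : ∀ v ∈ range n, 0 ≤ p v * y v 0 := by
    intro v hv
    have hv' := Finset.mem_range.1 hv
    have h0 := (hy0 v hv').1
    rcases h0.lt_or_eq with h | h
    · have h1 := hbad v
      rw [hblend v hv'] at h1
      have h2 : 0 < y v 0 + y v 1 := by have := hy1 v hv'; linarith
      have h3 : 0 ≤ p v := by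
        by_contra hneg
        push Not at hneg
        have := mul_neg_of_neg_of_pos hneg h2
        linarith
      exact mul_nonneg h3 h0
    · rw [← h]; simp
  have hJ0 : ∑ v ∈ range n, p v * y v 0 ≤ 0 := by
    have h1 := hf.blendOutput 0 (natN (E.length + n), zeroN) (by simp [mkI])
    rw [sumIn_J, sumIn_J] at h1
    simp only [if_true, one_ne_zero, if_false, add_zero, val_zeroN, zero_mul] at h1
    exact h1
  have hpy0 : ∀ v ∈ range n, p v * y v 0 = 0 := by
    have h1 : ∑ v ∈ range n, p v * y v 0 = 0 := le_antisymm hJ0 (Finset.sum_nonneg hpy)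
    exact (Finset.sum_eq_zero_iff_of_nonneg hpy).1 h1
  -- spoiled pools
  have hspoil : ∀ v < n, 0 < y v 0 → ∀ k < E.length, (ea E k = v → x k (ea E k) = 0) ∧
      (eb E k = v → x k (eb E k) = 0) := by
    intro v hv hpos k hk
    have h1 := hpy0 v (Finset.mem_range.2 hv)
    have h2 : p v = 0 := by
      rcases mul_eq_zero.1 h1 with h | h
      · exact h
      · exact absurd h hpos.ne'
    have h3 := hblend v hv
    rw [h2, zero_mul] at h3
    have h4 := (Finset.sum_eq_zero_iff_of_nonneg (fun k hk => hterm k hk v)).1 h3 k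
      (Finset.mem_range.2 hk)
    have h5 := hxa k hk
    have h6 := hxb k hk
    constructor
    · intro h
      rw [if_pos h] at h4
      have : 0 ≤ (if eb E k = v then x k (eb E k) else 0) := by split_ifs <;> linarith
      linarith
    · intro h
      rw [if_pos h] at h4
      have : 0 ≤ (if ea E k = v then x k (ea E k) else 0) := by split_ifs <;> linarith
      linarith
  let A : Finset ℕ := (range n).filter fun v => 0 < y v 0
  let In : Finset ℕ := (range E.length).filter fun k => ea E k ∈ A ∧ eb E k ∈ A
  have hA : ∀ v, v ∈ A ↔ v < n ∧ 0 < y v 0 := by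
    intro v; simp only [A, Finset.mem_filter, Finset.mem_range]
  have hsumE : ∑ k ∈ range E.length, (x k (ea E k) + x k (eb E k)) ≤
      (E.length : ℝ) - In.card := by
    have h1 : ∀ k ∈ range E.length, x k (ea E k) + x k (eb E k) ≤
        1 - (if ea E k ∈ A ∧ eb E k ∈ A then (1 : ℝ) else 0) := by
      intro k hk
      have hk' := Finset.mem_range.1 hk
      split_ifs with h
      · obtain ⟨h2, h3⟩ := h
        rw [hA] at h2 h3
        have h4 := (hspoil _ h2.1 h2.2 k hk').1 rfl
        have h5 := (hspoil _ h3.1 h3.2 k hk').2 rfl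
        rw [h4, h5]; norm_num
      · have := hcap k hk'; linarith
    refine (Finset.sum_le_sum h1).trans ?_
    rw [Finset.sum_sub_distrib]
    simp only [Finset.sum_const, Finset.card_range, nsmul_eq_mul, mul_one, Finset.sum_boole, In]
    exact le_rfl
  have hsumY : ∑ v ∈ range n, y v 0 ≤ (A.card : ℝ) := by
    have h1 : ∀ v ∈ range n, y v 0 ≤ if 0 < y v 0 then (1 : ℝ) else 0 := by
      intro v hv
      have h2 := hy0 v (Finset.mem_range.1 hv)
      split_ifs with h
      · exact h2.2
      · linarith
    refine (Finset.sum_le_sum h1).trans ?_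
    simp only [Finset.sum_boole, A]
    exact le_rfl
  have hcost : (E.length : ℝ) + m ≤ ∑ k ∈ range E.length, (x k (ea E k) + x k (eb E k)) +
      ∑ v ∈ range n, y v 0 := by
    rw [Inst.totalCost, sum_arcsI, sum_arcsJ] at hc
    simp only [val_moneN, val_zeroN, zero_mul, Finset.sum_const_zero, add_zero, neg_mul,
      one_mul, ← neg_add, Finset.sum_neg_distrib] at hc
    push_cast at hc
    linarith
  have hcard : m + In.card ≤ A.card := by
    have : (m : ℝ) + In.card ≤ A.card := by linarith
    exact_mod_cast this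
  refine ⟨A \ In.image (ea E), ⟨?_, ?_⟩, ?_⟩
  · intro v hv
    exact ((hA v).1 (Finset.mem_sdiff.1 hv).1).1
  · rintro e he ⟨h1, h2⟩
    obtain ⟨k, hk, h3, h4⟩ := edge_mem he
    rw [← h3] at h1
    rw [← h4] at h2
    rw [Finset.mem_sdiff] at h1 h2
    apply h1.2
    refine Finset.mem_image.2 ⟨k, ?_, rfl⟩
    simp only [In, Finset.mem_filter, Finset.mem_range]
    exact ⟨hk, h1.1, h2.1⟩
  · have h1 : (In.image (ea E)).card ≤ In.card := Finset.card_image_le
    have h2 := Finset.le_card_sdiff (In.image (ea E)) A
    omega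

/-! ### From independent sets to solutions -/

/-- The end of the edge to which the bad input is sent. -/
def dir (S : Finset ℕ) (E : List (ℕ × ℕ)) (k : ℕ) : ℕ := if ea E k ∈ S then eb E k else ea E k

noncomputable def solX (S : Finset ℕ) (E : List (ℕ × ℕ)) (i l : ℕ) : ℝ :=
  if i < E.length then (if dir S E i = l then 1 else 0) else (if l ∈ S then 1 else 0)

noncomputable def badIn (S : Finset ℕ) (E : List (ℕ × ℕ)) (l : ℕ) : ℝ :=
  ∑ k ∈ range E.length, if dir S E k = l then (1 : ℝ) else 0

noncomputable def solY (S : Finset ℕ) (E : List (ℕ × ℕ)) (l j : ℕ) : ℝ :=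
  if j = 0 then (if l ∈ S then 1 else 0) else badIn S E l

noncomputable def solP (S : Finset ℕ) (l : ℕ) : ℝ := if l ∈ S then 0 else 1

theorem badIn_nonneg (S : Finset ℕ) (E : List (ℕ × ℕ)) (l : ℕ) : 0 ≤ badIn S E l :=
  Finset.sum_nonneg fun k _ => by split_ifs <;> norm_num

theorem badIn_le (S : Finset ℕ) (E : List (ℕ × ℕ)) (l : ℕ) : badIn S E l ≤ E.length := by
  have h : ∀ k ∈ range E.length, (if dir S E k = l then (1 : ℝ) else 0) ≤ 1 := fun k _ => by
    split_ifs <;> norm_num
  refine (Finset.sum_le_sum h).trans ?_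
  simp

theorem ind_to_sol (hE : ∀ e ∈ E, e.1 < e.2 ∧ e.2 < n) {m : ℕ} {S : Finset ℕ}
    (hS : IsInd E n S) (hm : m ≤ S.card) :
    (mkI E n).Feasible (solX S E) (solY S E) (solP S) ∧
      (mkI E n).totalCost (solX S E) (solY S E) ≤ -((E.length + m : ℕ) : ℝ) := by
  classical
  obtain ⟨hS1, hS2⟩ := hS
  have hpl : (mkI E n).pools.length = n := by simp [mkI]
  have hne : ∀ k < E.length, ea E k ≠ eb E k := fun k hk => (hE _ (mem_edge hk)).1.ne
  have hdirS : ∀ k < E.length, dir S E k ∉ S := by
    intro k hk
    unfold dir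
    split_ifs with h
    · exact fun h' => hS2 _ (mem_edge hk) ⟨h, h'⟩
    · exact h
  have hdirn : ∀ k < E.length, dir S E k < n := by
    intro k hk
    have := hE _ (mem_edge hk)
    unfold dir
    split_ifs
    · exact this.2
    · exact this.1.trans this.2
  have hbadS : ∀ l ∈ S, badIn S E l = 0 := by
    intro l hl
    apply Finset.sum_eq_zero
    intro k hk
    rw [if_neg]
    rintro rfl
    exact hdirS k (Finset.mem_range.1 hk) hl
  have hxe : ∀ k < E.length, ∀ l, solX S E k l = if dir S E k = l then 1 else 0 := by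
    intro k hk l; simp [solX, hk]
  have hxv : ∀ v l, solX S E (E.length + v) l = if l ∈ S then 1 else 0 := by
    intro v l; simp [solX]
  have hy0 : ∀ l, solY S E l 0 = if l ∈ S then 1 else 0 := fun l => by simp [solY]
  have hy1 : ∀ l, solY S E l 1 = badIn S E l := fun l => by simp [solY]
  -- sum over the two arcs of an edge
  have hpair : ∀ k < E.length, ∀ l : ℕ,
      (if ea E k = l then solX S E k (ea E k) else 0) +
        (if eb E k = l then solX S E k (eb E k) else 0) = if dir S E k = l then 1 else 0 := by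
    intro k hk l
    have h1 := hne k hk
    rw [hxe k hk, hxe k hk]
    unfold dir
    by_cases ha : ea E k ∈ S
    · simp only [ha, if_true]
      by_cases hl : eb E k = l
      · subst hl; simp [h1, h1.symm]
      · simp [hl, h1.symm]
    · simp only [ha, if_false]
      by_cases hl : ea E k = l
      · subst hl; simp [h1, h1.symm]
      · simp [hl, h1]
  have hpair' : ∀ k < E.length, solX S E k (ea E k) + solX S E k (eb E k) = 1 := by
    intro k hk
    have h1 := hne k hk
    rw [hxe k hk, hxe k hk]
    unfold dir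
    by_cases ha : ea E k ∈ S
    · simp [ha, h1.symm]
    · simp [ha, h1]
  have hin : ∀ l < n, sumIn (mkI E n).arcsI l (fun a => solX S E a.tail a.head) =
      badIn S E l + if l ∈ S then 1 else 0 := by
    intro l hl
    rw [sumIn_I]
    simp only [hxv, Finset.sum_ite_eq', Finset.mem_range, hl, if_true]
    congr 1
    exact Finset.sum_congr rfl fun k hk => hpair k (Finset.mem_range.1 hk) l
  have hcardn : ∑ v ∈ range n, (if v ∈ S then (1 : ℝ) else 0) = S.card := by
    rw [Finset.sum_boole]
    congr 2
    ext v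
    simp only [Finset.mem_filter, Finset.mem_range]
    exact ⟨fun h => h.2, fun h => ⟨hS1 v h, h⟩⟩
  have hScard : (S.card : ℝ) ≤ n := by
    have : S.card ≤ (range n).card := Finset.card_le_card fun v hv => Finset.mem_range.2 (hS1 v hv)
    rw [Finset.card_range] at this
    exact_mod_cast this
  have hbadsum : ∑ v ∈ range n, badIn S E v = E.length := by
    unfold badIn
    rw [Finset.sum_comm]
    have : ∀ k ∈ range E.length, ∑ v ∈ range n, (if dir S E k = v then (1 : ℝ) else 0) = 1 := by
      intro k hk
      rw [Finset.sum_ite_eq, if_pos (Finset.mem_range.2 (hdirn k (Finset.mem_range.1 hk)))]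
    rw [Finset.sum_congr rfl this]
    simp
  refine ⟨⟨?_, ?_, ?_, ?_, ?_, ?_, ?_, ?_⟩, ?_⟩
  · intro a ha
    rcases mem_arcsI.1 ha with ⟨k, hk, rfl | rfl⟩ | ⟨v, hv, rfl⟩
    · simp only [hxe k hk, val_oneN]; split_ifs <;> norm_num
    · simp only [hxe k hk, val_oneN]; split_ifs <;> norm_num
    · simp only [hxv, val_oneN]; split_ifs <;> norm_num
  · intro a ha
    rcases mem_arcsJ.1 ha with ⟨v, hv, rfl | rfl⟩
    · simp only [hy0, val_oneN]; split_ifs <;> norm_num
    · simp only [hy1, val_natN]
      refine ⟨badIn_nonneg _ _ _, (badIn_le _ _ _).trans ?_⟩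
      push_cast
      have : (0 : ℝ) ≤ n := Nat.cast_nonneg n
      linarith
  · intro l hl
    rw [hpl] at hl
    rw [hin l hl, sumOut_J _ hl]
    simp only [hy0, hy1]
    ring
  · intro i q hq
    by_cases hi : i < E.length
    · have h1 : q = (oneN, oneN) := by
        simp only [mkI] at hq
        rw [List.getElem?_append_left (by simpa using hi)] at hq
        simp [hi] at hq
        exact hq.symm
      subst h1
      rw [sumOut_I]
      simp only [Finset.sum_add_distrib, Finset.sum_ite_eq', Finset.mem_range, hi, if_true,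
        val_oneN]
      have h2 : ∑ v ∈ range n, (if E.length + v = i then solX S E (E.length + v) v else 0) = 0 := by
        apply Finset.sum_eq_zero
        intro v _
        rw [if_neg (by omega)]
      rw [h2]
      have := hpair' i hi
      linarith
    · have h1 : val q.1 = 1 := by
        simp only [mkI] at hq
        rw [List.getElem?_append_right (by simpa using hi)] at hq
        simp only [List.getElem?_map, Option.map_eq_some_iff] at hq
        obtain ⟨-, -, rfl⟩ := hq
        exact val_oneN
      rw [sumOut_I, h1]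
      have h2 : ∑ k ∈ range E.length, ((if k = i then solX S E k (ea E k) else 0) +
          (if k = i then solX S E k (eb E k) else 0)) = 0 := by
        apply Finset.sum_eq_zero
        intro k hk
        have := Finset.mem_range.1 hk
        rw [if_neg (by omega), if_neg (by omega)]; simp
      rw [h2, zero_add]
      obtain ⟨v0, rfl⟩ : ∃ v0, i = E.length + v0 := ⟨i - E.length, by omega⟩
      have h3 : ∀ v ∈ range n, (if E.length + v = E.length + v0 then
          solX S E (E.length + v) v else 0) ≤ if v = v0 then (1 : ℝ) else 0 := by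
        intro v _
        rw [hxv]
        by_cases hv : v = v0
        · subst hv; simp only [if_true]; split_ifs <;> norm_num
        · rw [if_neg (by omega), if_neg hv]
      refine (Finset.sum_le_sum h3).trans ?_
      rw [Finset.sum_ite_eq']
      split_ifs <;> norm_num
  · intro l q hq
    have hl : l < n := by
      have := (List.getElem?_eq_some_iff.1 hq).1
      rwa [hpl] at this
    have hq' : q = natN (E.length + n) := by
      simp only [mkI, List.getElem?_map, Option.map_eq_some_iff] at hq
      obtain ⟨-, -, rfl⟩ := hq; rfl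
    rw [hq', val_natN, hin l hl]
    have h1 := badIn_le S E l
    have h2 : (1 : ℝ) ≤ n := by exact_mod_cast (by omega : 1 ≤ n)
    push_cast
    split_ifs <;> linarith
  · intro j q hq
    have hj : j < 2 := by
      have := (List.getElem?_eq_some_iff.1 hq).1
      simpa [mkI] using this
    have hq' : val q.1 = (E.length + n : ℕ) := by
      interval_cases j
      · simp only [mkI, List.getElem?_cons_zero, Option.some.injEq] at hq
        rw [← hq, val_natN]
      · simp only [mkI, List.getElem?_cons_succ, List.getElem?_cons_zero, Option.some.injEq] at hq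
        rw [← hq, val_natN]
    rw [hq', sumIn_J]
    push_cast
    have h1 : (0 : ℝ) ≤ E.length := Nat.cast_nonneg _
    have h2 : (0 : ℝ) ≤ n := Nat.cast_nonneg _
    interval_cases j
    · simp only [if_true, one_ne_zero, if_false, add_zero, hy0, hcardn]
      linarith
    · simp only [if_true, zero_ne_one, if_false, zero_add, hy1, hbadsum]
      linarith
  · intro l hl
    rw [hpl] at hl
    rw [sumIn_I, sumOut_J _ hl]
    simp only [hy0, hy1]
    have h1 : ∑ v ∈ range n, (if v = l then (mkI E n).quality (E.length + v) *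
        solX S E (E.length + v) v else 0) = 0 := by
      apply Finset.sum_eq_zero
      intro v hv
      rw [quality_vertex (Finset.mem_range.1 hv)]; simp
    have h2 : ∑ k ∈ range E.length, ((if ea E k = l then (mkI E n).quality k *
        solX S E k (ea E k) else 0) + (if eb E k = l then (mkI E n).quality k *
        solX S E k (eb E k) else 0)) = badIn S E l := by
      refine Finset.sum_congr rfl fun k hk => ?_
      rw [quality_edge (Finset.mem_range.1 hk), one_mul, one_mul]
      exact hpair k (Finset.mem_range.1 hk) l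
    rw [h1, h2, add_zero, solP]
    split_ifs with h
    · rw [hbadS l h]; ring
    · ring
  · intro j q hq
    have hj : j < 2 := by
      have := (List.getElem?_eq_some_iff.1 hq).1
      simpa [mkI] using this
    rw [sumIn_J, sumIn_J]
    interval_cases j
    · simp only [mkI, List.getElem?_cons_zero, Option.some.injEq] at hq
      rw [← hq, val_zeroN, zero_mul]
      simp only [if_true, one_ne_zero, if_false, add_zero, hy0]
      apply le_of_eq
      apply Finset.sum_eq_zero
      intro v _
      unfold solP
      split_ifs <;> simp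
    · simp only [mkI, List.getElem?_cons_succ, List.getElem?_cons_zero, Option.some.injEq] at hq
      rw [← hq, val_oneN, one_mul]
      simp only [if_true, zero_ne_one, if_false, zero_add, hy1]
      apply Finset.sum_le_sum
      intro v _
      have := badIn_nonneg S E v
      unfold solP
      split_ifs
      · simpa using this
      · simp
  · rw [Inst.totalCost, sum_arcsI, sum_arcsJ]
    simp only [val_moneN, val_zeroN, zero_mul, Finset.sum_const_zero, add_zero, neg_mul,
      one_mul, hy0, ← neg_add, Finset.sum_neg_distrib, hcardn]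
    have h1 : ∑ k ∈ range E.length, (solX S E k (ea E k) + solX S E k (eb E k)) =
        (E.length : ℝ) := by
      rw [Finset.sum_congr rfl fun k hk => hpair' k (Finset.mem_range.1 hk)]
      simp
    rw [h1]
    have h2 : (m : ℝ) ≤ S.card := by exact_mod_cast hm
    push_cast
    linarith

end Pool.Agent.Work.MP_743dc4_lc
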